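import Mathlib

/-!
# q-congruences between rational functions

`qint m` is the q-integer `[m] = (1 - q^m)/(1 - q)` of an integer `m`, `poch a b k` is the q-shifted
factorial `(a;b)_k = (1-a)(1-ab)...(1-ab^(k-1))`, both in the field `ℚ(q)`.
`CongrMod P R₁ R₂` is the congruence `R₁ ≡ R₂ (mod P)` of rational functions:
`R₁ = A/B`, `R₂ = C/D` with `B`, `D` coprime to `P` and `P ∣ AD - BC`.
-/

namespace Pool.Agent.X234.QF

open Polynomial

noncomputable section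

/-- The indeterminate `q` of `ℚ(q)`. -/
abbrev q : RatFunc ℚ := RatFunc.X

/-- The q-integer `[m] = (1 - q^m)/(1 - q)` of an integer `m`. -/
def qint (m : ℤ) : RatFunc ℚ := (1 - q ^ m) / (1 - q)

/-- The q-shifted factorial `(a;b)_k = ∏_{i<k} (1 - a b^i)`. -/
def poch (a b : RatFunc ℚ) (k : ℕ) : RatFunc ℚ := ∏ i ∈ Finset.range k, (1 - a * b ^ i)

/-- A polynomial in `q`, seen as a rational function. -/
abbrev toR (f : ℚ[X]) : RatFunc ℚ := algebraMap ℚ[X] (RatFunc ℚ) f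

/-- The congruence `R₁ ≡ R₂ (mod P)` of rational functions: `R₁ = A/B` and `R₂ = C/D` where `B`
and `D` are coprime to `P` and `P` divides `AD - BC`. -/
def CongrMod (P : ℚ[X]) (R₁ R₂ : RatFunc ℚ) : Prop :=
  ∃ A B C D : ℚ[X], IsCoprime B P ∧ IsCoprime D P ∧ R₁ = toR A / toR B ∧ R₂ = toR C / toR D ∧
    P ∣ A * D - B * C

/-- The sum `S_p(q) = ∑_{j=0}^{p-1} [2(p-1)j-1] ((q^{-1};q^{p-1})_j/(q^{p-1};q^{p-1})_j)^{2(p-1)}
q^{j(p-1)^2}`. -/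
def S (p : ℕ) : RatFunc ℚ :=
  ∑ j ∈ Finset.range p, qint (2 * ((p : ℤ) - 1) * j - 1) *
    (poch q⁻¹ (q ^ (p - 1)) j / poch (q ^ (p - 1)) (q ^ (p - 1)) j) ^ (2 * (p - 1)) *
    q ^ (j * (p - 1) ^ 2)

/-- The conjectured value
`(1/6) (p-1)(p-3)(2p-3)(p-2)^2 (1-q)^2 Φ_p(q)^4`. -/
def R (p : ℕ) : RatFunc ℚ :=
  toR (C (((p : ℚ) - 1) * (p - 3) * (2 * p - 3) * (p - 2) ^ 2 / 6)) * (1 - q) ^ 2 *
    toR (cyclotomic p ℚ) ^ 4

end

end Pool.Agent.X234.QF
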