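import Pool.Agent.X234.QF.Defs

namespace Pool.Agent.X234.QF

open Polynomial

noncomputable section

/-- integer polynomial seen in `ℚ(q)` -/
def zr (f : ℤ[X]) : RatFunc ℚ := toR (f.map (Int.castRingHom ℚ))

lemma zr_add (f g : ℤ[X]) : zr (f + g) = zr f + zr g := by simp [zr]
lemma zr_sub (f g : ℤ[X]) : zr (f - g) = zr f - zr g := by simp [zr]
lemma zr_mul (f g : ℤ[X]) : zr (f * g) = zr f * zr g := by simp [zr]
lemma zr_pow (f : ℤ[X]) (n : ℕ) : zr (f ^ n) = zr f ^ n := by simp [zr]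
lemma zr_one : zr 1 = 1 := by simp [zr]
lemma zr_X : zr X = q := by simp [zr, q]
lemma zr_neg (f : ℤ[X]) : zr (-f) = - zr f := by simp [zr]
lemma zr_sum {ι : Type*} (s : Finset ι) (f : ι → ℤ[X]) :
    zr (∑ i ∈ s, f i) = ∑ i ∈ s, zr (f i) := by
  simp [zr, Polynomial.map_sum]
lemma zr_prod {ι : Type*} (s : Finset ι) (f : ι → ℤ[X]) :
    zr (∏ i ∈ s, f i) = ∏ i ∈ s, zr (f i) := by
  simp [zr, Polynomial.map_prod]
lemma zr_C (a : ℤ) : zr (C a) = toR (C (a : ℚ)) := by simp [zr]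
lemma zr_cyclotomic (n : ℕ) : zr (cyclotomic n ℤ) = toR (cyclotomic n ℚ) := by
  simp [zr]

lemma q_ne : q ≠ 0 := RatFunc.X_ne_zero

lemma toR_inj {f g : ℚ[X]} (h : toR f = toR g) : f = g :=
  RatFunc.algebraMap_injective ℚ h

lemma q_eq : q = toR X := (RatFunc.algebraMap_X).symm

lemma q_pow_ne_one {n : ℕ} (hn : n ≠ 0) : q ^ n ≠ 1 := by
  intro h
  rw [q_eq, ← map_pow, ← map_one (algebraMap ℚ[X] (RatFunc ℚ))] at h
  have h1 := toR_inj h
  have h2 := congrArg natDegree h1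
  simp at h2
  exact hn h2

lemma one_sub_q_ne : (1 : RatFunc ℚ) - q ≠ 0 := by
  have h := q_pow_ne_one (n := 1) one_ne_zero
  intro h'
  apply h
  rw [pow_one]
  exact (sub_eq_zero.1 h').symm

/-- the numerator of the `j`-th summand, `j ≥ 1`, written for `j = i + 1` -/
def num (i : ℕ) : ℤ[X] :=
  (∑ k ∈ Finset.range (20 * i + 19), X ^ k) * (X - 1) ^ 20 *
    (∏ k ∈ Finset.range i, (1 - X ^ (10 * k + 9))) ^ 20 *
    (∏ k ∈ Finset.Ico (i + 1) 10, (1 - X ^ (10 * k + 10))) ^ 20 * X ^ (100 * i + 101)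

def den : ℤ[X] := X ^ 21 * (∏ k ∈ Finset.range 10, (1 - X ^ (10 * k + 10))) ^ 20

lemma poch_den (j : ℕ) :
    poch (q ^ 10) (q ^ 10) j = zr (∏ k ∈ Finset.range j, (1 - X ^ (10 * k + 10))) := by
  rw [zr_prod, poch]
  apply Finset.prod_congr rfl
  intro k _
  rw [zr_sub, zr_pow, zr_one, zr_X]
  congr 1
  ring

lemma poch_den_ne (j : ℕ) : poch (q ^ 10) (q ^ 10) j ≠ 0 := by
  rw [poch, Finset.prod_ne_zero_iff]
  intro k _ h
  have h1 : q ^ (10 * k + 10) = 1 := by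
    rw [sub_eq_zero] at h
    rw [h]
    ring
  exact q_pow_ne_one (by omega) h1

lemma poch_num (i : ℕ) :
    poch q⁻¹ (q ^ 10) (i + 1) =
      zr (∏ k ∈ Finset.range i, (1 - X ^ (10 * k + 9))) * (zr (X - 1) / q) := by
  rw [poch, Finset.prod_range_succ', zr_prod]
  have hq := q_ne
  congr 1
  · apply Finset.prod_congr rfl
    intro k _
    rw [zr_sub, zr_pow, zr_one, zr_X]
    congr 1
    rw [inv_mul_eq_iff_eq_mul₀ hq]
    ring
  · rw [zr_sub, zr_one, zr_X]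
    field_simp

lemma qint_eq (n : ℕ) : qint n = zr (∑ k ∈ Finset.range n, X ^ k) := by
  rw [qint, zr_sum]
  have h := one_sub_q_ne
  rw [div_eq_iff h]
  have e : ∑ i ∈ Finset.range n, zr (X ^ i) = ∑ i ∈ Finset.range n, q ^ i := by
    apply Finset.sum_congr rfl
    intro i _
    rw [zr_pow, zr_X]
  rw [e, geom_sum_mul_neg]
  simp

lemma den_eq : zr den = q ^ 21 * (poch (q ^ 10) (q ^ 10) 10) ^ 20 := by
  rw [den, zr_mul, zr_pow, zr_pow, zr_X, poch_den]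

lemma term_zero :
    (qint (2 * (((11 : ℕ) : ℤ) - 1) * ((0 : ℕ) : ℤ) - 1) *
      (poch q⁻¹ (q ^ (11 - 1)) 0 / poch (q ^ (11 - 1)) (q ^ (11 - 1)) 0) ^ (2 * (11 - 1)) *
      q ^ (0 * (11 - 1) ^ 2)) * zr den =
    zr (-(X ^ 20 * (∏ k ∈ Finset.range 10, (1 - X ^ (10 * k + 10))) ^ 20)) := by
  have hq := q_ne
  have h1 := one_sub_q_ne
  rw [den_eq, zr_neg, zr_mul, zr_pow, zr_pow, zr_X, ← poch_den]
  have e : qint (2 * (((11 : ℕ) : ℤ) - 1) * ((0 : ℕ) : ℤ) - 1) = - q⁻¹ := by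
    rw [qint]
    norm_num
    rw [div_eq_iff h1]
    field_simp
    ring
  rw [e]
  simp only [poch, Finset.range_zero, Finset.prod_empty, div_one, one_pow, mul_one, zero_mul,
    pow_zero]
  field_simp

lemma term_aux (G N Y P I : RatFunc ℚ) (hp : P ≠ 0) (m : ℕ) :
    G * (N * (Y / q) / P) ^ 20 * q ^ m * (q ^ 21 * (P * I) ^ 20) =
      G * Y ^ 20 * N ^ 20 * I ^ 20 * q ^ (m + 1) := by
  have hq := q_ne
  have hE : (N * (Y / q) / P) ^ 20 * (P * q) ^ 20 = (N * Y) ^ 20 := by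
    rw [← mul_pow]
    congr 1
    field_simp
  calc G * (N * (Y / q) / P) ^ 20 * q ^ m * (q ^ 21 * (P * I) ^ 20)
      = G * ((N * (Y / q) / P) ^ 20 * (P * q) ^ 20) * I ^ 20 * q ^ (m + 1) := by ring
    _ = G * Y ^ 20 * N ^ 20 * I ^ 20 * q ^ (m + 1) := by
        rw [hE]; ring

lemma term_succ (i : ℕ) (hi : i < 10) :
    (qint ((20 * i + 19 : ℕ) : ℤ) *
      (poch q⁻¹ (q ^ 10) (i + 1) / poch (q ^ 10) (q ^ 10) (i + 1)) ^
        20 * q ^ (100 * i + 100)) * zr den = zr (num i) := by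
  rw [qint_eq, den_eq]
  have hsplit : poch (q ^ 10) (q ^ 10) 10 = poch (q ^ 10) (q ^ 10) (i + 1) *
      zr (∏ k ∈ Finset.Ico (i + 1) 10, (1 - X ^ (10 * k + 10))) := by
    rw [poch_den, poch_den, ← zr_mul, Finset.prod_range_mul_prod_Ico _ (by omega)]
  unfold num
  simp only [hsplit, zr_mul, zr_pow, zr_X, poch_num]
  exact term_aux _ _ _ _ _ (poch_den_ne (i + 1)) _

/-- the numerator of `(S_11 - R_11) * den` -/
def total : ℤ[X] :=
  (∑ i ∈ Finset.range 10, num i) +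
    (-(X ^ 20 * (∏ k ∈ Finset.range 10, (1 - X ^ (10 * k + 10))) ^ 20)) -
    C 20520 * (1 - X) ^ 2 * cyclotomic 11 ℤ ^ 4 * den

lemma S_eleven : S 11 * zr den = zr (∑ i ∈ Finset.range 10, num i) +
    zr (-(X ^ 20 * (∏ k ∈ Finset.range 10, (1 - X ^ (10 * k + 10))) ^ 20)) := by
  unfold S
  rw [Finset.sum_mul, Finset.sum_range_succ', term_zero, zr_sum]
  congr 1
  apply Finset.sum_congr rfl
  intro i hi
  have e : (2 * (((11 : ℕ) : ℤ) - 1) * ((i + 1 : ℕ) : ℤ) - 1) = ((20 * i + 19 : ℕ) : ℤ) := by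
    push_cast; ring
  have e2 : (i + 1) * (11 - 1) ^ 2 = 100 * i + 100 := by
    norm_num; ring
  have e3 : (11 - 1 : ℕ) = 10 := rfl
  have e4 : (2 * 10 : ℕ) = 20 := rfl
  rw [e, e2, e3, e4]
  exact term_succ i (Finset.mem_range.1 hi)

lemma R_eleven : R 11 = zr (C 20520 * (1 - X) ^ 2 * cyclotomic 11 ℤ ^ 4) := by
  simp only [zr_mul, zr_pow, zr_C, zr_cyclotomic, zr_sub, zr_one, zr_X]
  unfold R
  have e : ((((11 : ℕ) : ℚ) - 1) * (((11 : ℕ) : ℚ) - 3) * (2 * ((11 : ℕ) : ℚ) - 3) *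
      (((11 : ℕ) : ℚ) - 2) ^ 2 / 6) = ((20520 : ℤ) : ℚ) := by norm_num
  rw [e]

lemma total_eq : (S 11 - R 11) * zr den = zr total := by
  unfold total
  rw [zr_sub, zr_add, sub_mul, S_eleven, R_eleven, ← zr_mul]

lemma dvd_total (h : CongrMod (cyclotomic 11 ℚ ^ 5) (S 11) (R 11)) :
    cyclotomic 11 ℤ ^ 5 ∣ total := by
  obtain ⟨A, B, C', D, hB, hD, h1, h2, E, hE⟩ := h
  have hnu : ¬ IsUnit (cyclotomic 11 ℚ ^ 5) := by
    rw [isUnit_pow_iff (by norm_num)]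
    exact (cyclotomic.irreducible_rat (by norm_num)).not_isUnit
  have hB0 : toR B ≠ 0 := by
    intro h
    have : B = 0 := by
      apply toR_inj
      rw [h]
      simp
    rw [this, isCoprime_zero_left] at hB
    exact hnu hB
  have hD0 : toR D ≠ 0 := by
    intro h
    have : D = 0 := by
      apply toR_inj
      rw [h]
      simp
    rw [this, isCoprime_zero_left] at hD
    exact hnu hD
  have ht := total_eq
  rw [h1, h2] at ht
  have key : total.map (Int.castRingHom ℚ) * (B * D) =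
      (cyclotomic 11 ℚ ^ 5) * (E * den.map (Int.castRingHom ℚ)) := by
    apply toR_inj
    have e1 : toR (total.map (Int.castRingHom ℚ) * (B * D)) = zr total * (toR B * toR D) := by
      rw [toR, map_mul, map_mul]; rfl
    have e2 : toR ((cyclotomic 11 ℚ ^ 5) * (E * den.map (Int.castRingHom ℚ))) =
        toR ((cyclotomic 11 ℚ ^ 5) * E) * zr den := by
      rw [← mul_assoc, toR, map_mul]; rfl
    have e3 : toR (A * D - B * C') = toR A * toR D - toR B * toR C' := by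
      simp [toR]
    rw [e1, e2, ← ht, ← hE, e3]
    field_simp
  have hdvd : cyclotomic 11 ℚ ^ 5 ∣ total.map (Int.castRingHom ℚ) := by
    have h3 : cyclotomic 11 ℚ ^ 5 ∣ total.map (Int.castRingHom ℚ) * (B * D) := ⟨_, key⟩
    exact (IsCoprime.mul_left hB hD).symm.dvd_of_dvd_mul_right h3
  have hmap : cyclotomic 11 ℚ ^ 5 = (cyclotomic 11 ℤ ^ 5).map (Int.castRingHom ℚ) := by
    simp
  rw [hmap, Polynomial.map_dvd_map (Int.castRingHom ℚ) (RingHom.injective_int _)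
    ((cyclotomic.monic 11 ℤ).pow 5)] at hdvd
  exact hdvd

end

end Pool.Agent.X234.QF
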