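import Pool.Agent.X234.QF.Eleven

namespace Pool.Agent.X234.QF

open Polynomial

/-- value at `2` of the product of the denominators -/
def dv : ℤ := (∏ k ∈ Finset.range 10, (1 - 2 ^ (10 * k + 10))) ^ 20

/-- value at `2` of `num i` -/
def nv (i : ℕ) : ℤ :=
  (2 ^ (20 * i + 19) - 1) * (∏ k ∈ Finset.range i, (1 - 2 ^ (10 * k + 9))) ^ 20 *
    (∏ k ∈ Finset.Ico (i + 1) 10, (1 - 2 ^ (10 * k + 10))) ^ 20 * 2 ^ (100 * i + 101)

lemma eval_num (i : ℕ) : (num i).eval 2 = nv i := by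
  unfold num nv
  have h : ∑ k ∈ Finset.range (20 * i + 19), (2 : ℤ) ^ k = 2 ^ (20 * i + 19) - 1 := by
    have := geom_sum_mul (2 : ℤ) (20 * i + 19)
    linarith
  simp only [eval_mul, eval_pow, eval_sub, eval_X, eval_one, eval_finsetSum, eval_prod, h]
  norm_num

lemma eval_den : den.eval 2 = 2 ^ 21 * dv := by
  unfold den dv
  simp only [eval_mul, eval_pow, eval_sub, eval_X, eval_one, eval_prod]

lemma eval_cyc : (cyclotomic 11 ℤ).eval 2 = 2047 := by
  have : Fact (Nat.Prime 11) := ⟨by norm_num⟩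
  rw [cyclotomic_prime]
  simp [Finset.sum_range_succ]

lemma eval_total : total.eval 2 =
    ((∑ i ∈ Finset.range 10, nv i) - 2 ^ 20 * dv) - 20520 * 2047 ^ 4 * (2 ^ 21 * dv) := by
  unfold total
  have e : (∏ k ∈ Finset.range 10, ((1 : ℤ) - 2 ^ (10 * k + 10))) ^ 20 = dv := rfl
  simp only [eval_mul, eval_pow, eval_sub, eval_add, eval_neg, eval_X, eval_one, eval_C,
    eval_finsetSum, eval_prod, eval_num, eval_den, eval_cyc, e]
  ring

lemma value : ¬ (23 ^ 5 : ℤ) ∣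
    ((∑ i ∈ Finset.range 10, nv i) - 2 ^ 20 * dv) - 20520 * 2047 ^ 4 * (2 ^ 21 * dv) := by
  intro h
  have h2 := Int.emod_eq_zero_of_dvd h
  revert h2
  decide +kernel

theorem not_congr_eleven : ¬ CongrMod (cyclotomic 11 ℚ ^ 5) (S 11) (R 11) := by
  intro h
  obtain ⟨E, hE⟩ := dvd_total h
  have h1 := congrArg (eval 2) hE
  rw [eval_total, eval_mul, eval_pow, eval_cyc] at h1
  apply value
  rw [h1]
  exact Dvd.dvd.mul_right (by norm_num) _

end Pool.Agent.X234.QF
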